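import Pool.Agent.Y979.HM.Stm
import Pool.Agent.Y979.HV.Bounds

/-! HM-TV: areas of hyperbolic balls and numbers of tiles -/

set_option autoImplicit false

open MeasureTheory UpperHalfPlane Pool.Agent.Y979.HV Pool.Agent.Y979.HM
open scoped ENNReal

namespace Pool.Agent.Y563.HM.Tv

theorem cosh_dist' (z w : ℍ) : Real.cosh (dist z w) =
    1 + ((z.re - w.re) ^ 2 + (z.im - w.im) ^ 2) / (2 * z.im * w.im) := by
  rw [UpperHalfPlane.cosh_dist]
  congr 2
  rw [Complex.dist_eq, ← Complex.normSq_eq_norm_sq, Complex.normSq_apply]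
  simp only [Complex.sub_re, Complex.sub_im, UpperHalfPlane.coe_re, UpperHalfPlane.coe_im]
  ring

theorem vol_le (z : ℍ) (r : ℝ) (hr : 0 ≤ r) :
    volume (Metric.closedBall z r) ≤ ENNReal.ofReal (2 * Real.exp (2 * r)) := by
  have hz := z.im_pos
  have hE : 0 < Real.exp r := Real.exp_pos r
  have hE1 : 1 ≤ Real.exp r := Real.one_le_exp hr
  set E := Real.exp r with hEdef
  have hsub : Metric.closedBall z r ⊆
      box (Set.Icc (z.re - z.im * E) (z.re + z.im * E)) (z.im / E) (2 * (z.im * E)) := by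
    intro w hw
    rw [Metric.mem_closedBall, dist_comm] at hw
    have hwp := w.im_pos
    have h1 := im_ge_exp z w
    have h2 := im_ge_exp w z
    rw [dist_comm w z] at h2
    have hD : Real.exp (dist z w) ≤ E := Real.exp_le_exp.2 hw
    have hDp := Real.exp_pos (dist z w)
    have h3 : z.im / E ≤ w.im := (div_le_div_of_nonneg_left hz.le hDp hD).trans h1
    have h4 : w.im ≤ z.im * E := by
      rw [div_le_iff₀ hDp] at h2
      exact h2.trans (mul_le_mul_of_nonneg_left hD hz.le)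
    have h5 : Real.cosh (dist z w) ≤ Real.cosh r := by
      rw [Real.cosh_le_cosh, abs_of_nonneg dist_nonneg, abs_of_nonneg hr]
      exact hw
    rw [cosh_dist'] at h5
    have h6 : (z.re - w.re) ^ 2 ≤ (Real.cosh r - 1) * (2 * z.im * w.im) := by
      have h7 : ((z.re - w.re) ^ 2 + (z.im - w.im) ^ 2) / (2 * z.im * w.im) ≤ Real.cosh r - 1 := by
        linarith
      rw [div_le_iff₀ (by positivity)] at h7
      nlinarith [sq_nonneg (z.im - w.im)]
    have h8 : Real.cosh r = (E + E⁻¹) / 2 := by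
      rw [Real.cosh_eq, Real.exp_neg]
    have h9 : (z.re - w.re) ^ 2 ≤ (z.im * E) ^ 2 := by
      have h10 : (Real.cosh r - 1) * (2 * z.im * w.im) ≤
          (Real.cosh r - 1) * (2 * z.im * (z.im * E)) := by
        apply mul_le_mul_of_nonneg_left _ (by linarith [Real.one_le_cosh r])
        apply mul_le_mul_of_nonneg_left h4 (by positivity)
      refine h6.trans (h10.trans ?_)
      rw [h8]
      have h11 : E⁻¹ * E = 1 := inv_mul_cancel₀ hE.ne'
      have h12 : ((E + E⁻¹) / 2 - 1) * (2 * z.im * (z.im * E)) =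
          z.im ^ 2 * (E ^ 2 + E⁻¹ * E - 2 * E) := by ring
      rw [h12, h11, mul_pow]
      apply mul_le_mul_of_nonneg_left _ (by positivity)
      linarith
    have h13 : |z.re - w.re| ≤ z.im * E := abs_le_of_sq_le_sq h9 (by positivity)
    rw [abs_le] at h13
    refine ⟨⟨by linarith [h13.2], by linarith [h13.1]⟩, h3, ?_⟩
    have : 0 < z.im * E := by positivity
    linarith
  refine (measure_mono hsub).trans ?_
  rw [volume_box measurableSet_Icc (by positivity) ?_, Real.volume_Icc,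
    ← ENNReal.ofReal_mul (by nlinarith [mul_pos hz hE])]
  · apply ENNReal.ofReal_le_ofReal
    have h1 : 1 / (z.im / E) - 1 / (2 * (z.im * E)) ≤ E / z.im := by
      rw [one_div_div]
      have : 0 < 1 / (2 * (z.im * E)) := by positivity
      linarith
    calc (z.re + z.im * E - (z.re - z.im * E)) * (1 / (z.im / E) - 1 / (2 * (z.im * E)))
        ≤ (z.re + z.im * E - (z.re - z.im * E)) * (E / z.im) :=
          mul_le_mul_of_nonneg_left h1 (by nlinarith [mul_pos hz hE])
      _ = 2 * (E * E) := by field_simp; ring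
      _ = 2 * Real.exp (2 * r) := by rw [hEdef, ← Real.exp_add]; ring_nf
  · rw [div_le_iff₀ hE]
    nlinarith [mul_pos hz hE, mul_le_mul_of_nonneg_left hE1 hz.le]

theorem le_vol (z : ℍ) (r : ℝ) (hr : 2 ≤ r) :
    ENNReal.ofReal (Real.exp (r / 2) / 2) ≤ volume (Metric.ball z r) := by
  have hz := z.im_pos
  set E := Real.exp (r / 2) with hEdef
  have hE0 : 2.7 < E := by
    have h1 : Real.exp 1 ≤ E := Real.exp_le_exp.2 (by linarith)
    have h2 := Real.exp_one_gt_d9
    linarith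
  have hE : 0 < E := by linarith
  have hsub : box (Set.Ico (z.re - z.im / 2) (z.re + z.im / 2)) (z.im / E) (2 * (z.im / E)) ⊆
      Metric.ball z r := by
    rintro w ⟨⟨h1, h2⟩, h3, h4⟩
    rw [Metric.mem_ball, dist_comm]
    have hwp := w.im_pos
    have hlt : Real.cosh (dist z w) < Real.cosh r := by
      rw [cosh_dist']
      have h5 : (z.re - w.re) ^ 2 ≤ (z.im / 2) ^ 2 := by
        apply sq_le_sq'
        · linarith
        · linarith
      have h6 : z.im / E ≤ z.im / 2 := div_le_div_of_nonneg_left hz.le (by norm_num) (by linarith)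
      have h7 : (z.im - w.im) ^ 2 ≤ z.im ^ 2 := by
        apply sq_le_sq'
        · linarith
        · linarith
      have h8 : ((z.re - w.re) ^ 2 + (z.im - w.im) ^ 2) / (2 * z.im * w.im) ≤ 5 / 8 * E := by
        rw [div_le_iff₀ (by positivity)]
        have h9 : z.im ≤ w.im * E := by
          rwa [div_le_iff₀ hE] at h3
        nlinarith [mul_le_mul_of_nonneg_left h9 hz.le]
      have h10 : Real.cosh r = (E ^ 2 + (E ^ 2)⁻¹) / 2 := by
        rw [Real.cosh_eq, Real.exp_neg, hEdef, ← Real.exp_nat_mul]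
        congr 3 <;> push_cast <;> ring_nf
      have h11 : 0 < (E ^ 2)⁻¹ := by positivity
      rw [h10]
      nlinarith
    rw [Real.cosh_lt_cosh, abs_of_nonneg dist_nonneg, abs_of_nonneg (by linarith)] at hlt
    exact hlt
  refine le_trans (le_of_eq ?_) (measure_mono hsub)
  rw [volume_box measurableSet_Ico (by positivity) (by
      have : 0 < z.im / E := by positivity
      linarith), Real.volume_Ico, ← ENNReal.ofReal_mul (by linarith)]
  congr 1
  field_simp
  ring

theorem tile_eq (p : ℤ × ℤ) : tile p =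
    box (Set.Ico ((p.2 : ℝ) * 2 ^ p.1) ((p.2 + 1) * 2 ^ p.1)) (2 ^ p.1) (2 ^ (p.1 + 1)) := by
  ext z
  constructor
  · rintro ⟨h1, h2, h3, h4⟩
    exact ⟨⟨h1, h2⟩, h3, h4⟩
  · rintro ⟨⟨h1, h2⟩, h3, h4⟩
    exact ⟨h1, h2, h3, h4⟩

theorem vol_tile (p : ℤ × ℤ) : volume (tile p) = ENNReal.ofReal (1 / 2) := by
  have h : (0 : ℝ) < 2 ^ p.1 := by positivity
  have h2 : (2 : ℝ) ^ (p.1 + 1) = 2 ^ p.1 * 2 := by
    rw [zpow_add₀ (by norm_num), zpow_one]
  rw [tile_eq, volume_box measurableSet_Ico h (by rw [h2]; linarith), Real.volume_Ico,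
    ← ENNReal.ofReal_mul (by nlinarith)]
  congr 1
  rw [h2]
  field_simp
  ring

theorem meas_tile (p : ℤ × ℤ) : MeasurableSet (tile p) := by
  rw [tile_eq]
  exact measurableSet_box measurableSet_Ico _ _

theorem disj_tile : Pairwise (Function.onFun Disjoint tile) := by
  intro p q hpq
  rw [Function.onFun, Set.disjoint_left]
  rintro z ⟨h1, h2, h3, h4⟩ ⟨g1, g2, g3, g4⟩
  apply hpq
  have e1 : p.1 = q.1 := by
    have a1 : (2 : ℝ) ^ p.1 < 2 ^ (q.1 + 1) := h3.trans_lt g4
    have a2 : (2 : ℝ) ^ q.1 < 2 ^ (p.1 + 1) := g3.trans_lt h4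
    rw [zpow_lt_zpow_iff_right₀ (by norm_num)] at a1 a2
    omega
  rw [← e1] at g1 g2
  have h : (0 : ℝ) < 2 ^ p.1 := by positivity
  have e2 : p.2 = q.2 := by
    have b1 : (p.2 : ℝ) < q.2 + 1 := lt_of_mul_lt_mul_right (h1.trans_lt g2) h.le
    have b2 : (q.2 : ℝ) < p.2 + 1 := lt_of_mul_lt_mul_right (g1.trans_lt h2) h.le
    have b3 : p.2 < q.2 + 1 := by exact_mod_cast b1
    have b4 : q.2 < p.2 + 1 := by exact_mod_cast b2
    omega
  exact Prod.ext e1 e2

theorem dist_ctr {p : ℤ × ℤ} {z : ℍ} (hz : z ∈ tile p) : dist (ctr p) z ≤ 1 := by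
  obtain ⟨h1, h2, h3, h4⟩ := hz
  have h : (0 : ℝ) < 2 ^ p.1 := by positivity
  have h5 : (2 : ℝ) ^ (p.1 + 1) = 2 ^ p.1 * 2 := by
    rw [zpow_add₀ (by norm_num), zpow_one]
  rw [h5] at h4
  have hre : (ctr p).re = ((p.2 : ℝ) + 1 / 2) * 2 ^ p.1 := rfl
  have him : (ctr p).im = 3 / 2 * 2 ^ p.1 := rfl
  have h6 : Real.cosh (dist (ctr p) z) ≤ 7 / 6 := by
    rw [cosh_dist', hre, him]
    set t : ℝ := 2 ^ p.1 with ht
    have h7 : (((p.2 : ℝ) + 1 / 2) * t - z.re) ^ 2 ≤ (t / 2) ^ 2 := by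
      apply sq_le_sq'
      · nlinarith
      · nlinarith
    have h8 : (3 / 2 * t - z.im) ^ 2 ≤ (t / 2) ^ 2 := by
      apply sq_le_sq'
      · nlinarith
      · nlinarith
    have hzp := z.im_pos
    have h9 : ((((p.2 : ℝ) + 1 / 2) * t - z.re) ^ 2 + (3 / 2 * t - z.im) ^ 2) /
        (2 * (3 / 2 * t) * z.im) ≤ 1 / 6 := by
      rw [div_le_iff₀ (by positivity)]
      nlinarith [mul_le_mul_of_nonneg_left h3 h.le]
    linarith
  have h10 : Real.cosh (dist (ctr p) z) ≤ Real.cosh 1 := by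
    have := half_sq_le_cosh 1
    linarith
  rw [Real.cosh_le_cosh, abs_of_nonneg dist_nonneg, abs_one] at h10
  exact h10

theorem card_le (p : ℤ × ℤ) (r : ℝ) (hr : 0 ≤ r) (F : Finset (ℤ × ℤ))
    (hF : ∀ q ∈ F, dist (ctr p) (ctr q) ≤ r) : (F.card : ℝ) ≤ 4 * Real.exp (2 * (r + 1)) := by
  have h1 : volume (⋃ q ∈ F, tile q) ≤ ENNReal.ofReal (2 * Real.exp (2 * (r + 1))) := by
    refine le_trans (measure_mono ?_) (vol_le (ctr p) (r + 1) (by linarith))
    intro z hz
    simp only [Set.mem_iUnion] at hz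
    obtain ⟨q, hq, hzq⟩ := hz
    rw [Metric.mem_closedBall, dist_comm]
    exact (dist_triangle _ (ctr q) _).trans (add_le_add (hF q hq) (dist_ctr hzq))
  rw [measure_biUnion_finset (fun a _ b _ hab => disj_tile hab) (fun q _ => meas_tile q)] at h1
  simp only [vol_tile, Finset.sum_const, nsmul_eq_mul] at h1
  rw [← ENNReal.ofReal_natCast, ← ENNReal.ofReal_mul (by positivity),
    ENNReal.ofReal_le_ofReal_iff (by positivity)] at h1
  linarith

theorem tv : S_TV := by
  refine ⟨vol_le, le_vol, fun p r hr => ?_⟩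
  have hfin : {p' : ℤ × ℤ | dist (ctr p) (ctr p') ≤ r}.Finite := by
    by_contra hinf
    obtain ⟨N, hN⟩ := exists_nat_gt (4 * Real.exp (2 * (r + 1)))
    obtain ⟨F, hF, hc⟩ := Set.Infinite.exists_subset_card_eq hinf N
    have := card_le p r hr F fun q hq => hF hq
    rw [hc] at this
    linarith
  refine ⟨hfin, ?_⟩
  rw [Set.ncard_eq_toFinset_card _ hfin]
  exact card_le p r hr _ fun q hq => by simpa using hq

end Pool.Agent.Y563.HM.Tv
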